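import Mathlib
import Pool.Agent.H77DF.Cantor

/-!
A homeomorphism of the plane which preserves `C^1` curves in both directions and is
non-differentiable at uncountably many points.
-/

namespace Pool.Agent.Results.MP_bd3523_gt.UncountableNondiff

open Pool.Agent.H77DF

/-- **Q1, answered yes, with `S` the plane.**  There is an element of `Homeo^1` of the plane whose
non-differentiable set is uncountable. -/
theorem result :
    ∃ f : ℂ ≃ₜ ℂ, MemHomeo1 f ∧ ¬ {p : ℂ | ¬ DifferentiableAt ℝ f p}.Countable := by
  obtain ⟨g, g', Pg, h1, h2⟩ := exists_inv prof_hp hp'_bd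
  have c1 : ∀ z, F g (F hp z) = z := comp_inv prof_hp Pg h1
  have c2 : ∀ z, F hp (F g z) = z := comp_inv Pg prof_hp h2
  refine ⟨⟨⟨F hp, F g, c1, c2⟩, F_continuous prof_hp, F_continuous Pg⟩, ⟨?_, ?_⟩, ?_⟩
  · intro C hC
    exact image_curve prof_hp (Function.LeftInverse.injective c1) hC
  · intro C hC
    exact image_curve Pg (Function.LeftInverse.injective c2) hC
  · exact uncountable_nondiff

end Pool.Agent.Results.MP_bd3523_gt.UncountableNondiff
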